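import Mathlib

/-! Integer data of the 48 neighbours (scale 1000) and the kernel check. -/

set_option autoImplicit false

namespace Pool.Agent.Y371.VF

/-- coordinates (times 1000) of the 48 neighbours of the centre at the origin -/
def pts : List (ℤ × ℤ × ℤ) := [
  (212, -792, -3797),
  (-1760, 1820, -2732),
  (850, -3771, 294),
  (-2827, 2492, 925),
  (1416, -1551, 3083),
  (-1604, -73, -3361),
  (3173, 716, -1818),
  (-1840, -2524, 2043),
  (1997, -420, -2972),
  (2175, 363, 3091),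
  (1985, -2760, 1594),
  (-2780, 2045, -1025),
  (3279, -2062, 237),
  (-3106, 409, -2130),
  (66, -3133, 2021),
  (1182, -2241, -2816),
  (1962, 2115, 2150),
  (-1316, 3327, -1493),
  (-1129, -3531, 466),
  (431, 3310, 1666),
  (3424, 861, 1609),
  (2059, 3250, 504),
  (269, 10, 3588),
  (-3365, -900, 1323),
  (-2200, -775, 2945),
  (282, 1978, 3229),
  (469, 3643, -645),
  (-818, -2233, -2867),
  (-1456, 1013, 3450),
  (-544, -1808, 3390),
  (-3416, -932, -677),
  (3728, -141, -97),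
  (2989, -1063, 1946),
  (-55, 1177, -3558),
  (-2631, -1512, -2424),
  (1835, 1574, -3034),
  (-1350, 2624, 2268),
  (2077, 2750, -1434),
  (-2942, 888, 2116),
  (-3692, 814, 262),
  (104, -3397, -1525),
  (3165, -1315, -1616),
  (-1174, 3533, 492),
  (356, 2795, -2454),
  (-2884, -2573, 337),
  (1966, -2821, -1069),
  (3288, 1811, -147),
  (-1843, -2985, -1321)]

/-- a constraint `a x + b y + c z ≤ d`, coded as `(a, b, c, d)` -/
abbrev Con := ℤ × ℤ × ℤ × ℤ

/-- the bisector constraint of a neighbour -/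
def bis (p : ℤ × ℤ × ℤ) : Con :=
  (2 * p.1, 2 * p.2.1, 2 * p.2.2, p.1 * p.1 + p.2.1 * p.2.1 + p.2.2 * p.2.2)

/-- the constraints of a large cube -/
def cube : List Con :=
  [(1, 0, 0, 10000), (-1, 0, 0, 10000), (0, 1, 0, 10000), (0, -1, 0, 10000),
    (0, 0, 1, 10000), (0, 0, -1, 10000)]

/-- the constraints -/
def cons : List Con := pts.map bis ++ cube

/-- the point `(X0, X1, X2) / D1` is the upper end and `(Y0, Y1, Y2) / D2` the lower end of the
feasible interval on a line of direction `m`: the interval is empty or its ends are short -/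
def ends (m0 m1 m2 D1 X0 X1 X2 D2 Y0 Y1 Y2 : ℤ) : Bool :=
  decide (0 < D1) && (decide (D2 < 0) &&
    (decide ((m0 * Y0 + m1 * Y1 + m2 * Y2) * D1 < (m0 * X0 + m1 * X1 + m2 * X2) * D2) ||
      (decide (X0 * X0 + X1 * X1 + X2 * X2 < 4000000 * (D1 * D1)) &&
        decide (Y0 * Y0 + Y1 * Y1 + Y2 * Y2 < 4000000 * (D2 * D2)))))

/-- numerators and denominator of the point common to the line and the plane `c` -/
def dn (m0 m1 m2 : ℤ) (c : Con) : ℤ := m0 * c.1 + m1 * c.2.1 + m2 * c.2.2.1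
def n0 (m0 _m1 _m2 _e0 e1 e2 : ℤ) (c : Con) : ℤ := c.2.2.2 * m0 + (c.2.1 * e2 - c.2.2.1 * e1)
def n1 (_m0 m1 _m2 e0 _e1 e2 : ℤ) (c : Con) : ℤ := c.2.2.2 * m1 + (c.2.2.1 * e0 - c.1 * e2)
def n2 (_m0 _m1 m2 e0 e1 _e2 : ℤ) (c : Con) : ℤ := c.2.2.2 * m2 + (c.1 * e1 - c.2.1 * e0)

/-- check for the line of direction `m` with the moment vector `e` -/
def line (m0 m1 m2 e0 e1 e2 : ℤ) (l k : Con) : Bool :=
  (decide (m0 = 0) && (decide (m1 = 0) && decide (m2 = 0))) ||
  ends m0 m1 m2 (dn m0 m1 m2 l) (n0 m0 m1 m2 e0 e1 e2 l) (n1 m0 m1 m2 e0 e1 e2 l)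
    (n2 m0 m1 m2 e0 e1 e2 l) (dn m0 m1 m2 k) (n0 m0 m1 m2 e0 e1 e2 k) (n1 m0 m1 m2 e0 e1 e2 k)
    (n2 m0 m1 m2 e0 e1 e2 k)

/-- check for the line common to the planes of `a` and `b` -/
def pairOk (a b l k : Con) : Bool :=
  line (a.2.1 * b.2.2.1 - a.2.2.1 * b.2.1) (a.2.2.1 * b.1 - a.1 * b.2.2.1)
    (a.1 * b.2.1 - a.2.1 * b.1) (b.2.2.2 * a.1 - a.2.2.2 * b.1)
    (b.2.2.2 * a.2.1 - a.2.2.2 * b.2.1) (b.2.2.2 * a.2.2.1 - a.2.2.2 * b.2.2.1) l k

/-- check for `a` and all planes of a list -/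
def row (cs : List Con) (a : Con) : List Con → List (ℕ × ℕ) → Bool
  | [], _ => true
  | _ :: _, [] => false
  | b :: t, q :: r => pairOk a b (cs.getD q.1 (0, 0, 0, 0)) (cs.getD q.2 (0, 0, 0, 0)) && row cs a t r

/-- check for all pairs of planes of a list -/
def rows (cs : List Con) : List Con → List (List (ℕ × ℕ)) → Bool
  | [], _ => true
  | _ :: _, [] => false
  | a :: t, r :: rs => row cs a t r && rows cs t rs

/-- the certificate -/
def cert : List (List (ℕ × ℕ)) := [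
[(33, 5), (40, 15), (1, 11), (10, 45), (33, 27), (8, 35), (27, 18), (15, 33), (41, 31), (15,
   45), (1, 5), (15, 41), (5, 34), (40, 2), (27, 8), (46, 35), (33, 1), (27, 40), (35, 26), (8,
   6), (35, 37), (15, 10), (30, 34), (34, 44), (37, 19), (35, 43), (5, 15), (13, 39), (18, 40),
   (5, 34), (41, 8), (12, 41), (8, 5), (5, 27), (8, 33), (17, 1), (35, 33), (39, 30), (13, 34),
   (27, 15), (15, 8), (33, 17), (35, 33), (34, 27), (15, 8), (6, 35), (34, 27), (31, 8), (39,
   30), (43, 33), (29, 40), (2, 15), (33, 42)],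
[(34, 5), (17, 11), (28, 11), (13, 33), (35, 43), (23, 30), (0, 33), (16, 17), (5, 15), (17,
   13), (8, 33), (11, 5), (44, 34), (5, 0), (26, 17), (43, 11), (13, 34), (26, 17), (43, 21),
   (43, 26), (36, 3), (39, 13), (11, 39), (42, 36), (43, 17), (5, 0), (3, 11), (39, 23), (11,
   13), (35, 43), (35, 43), (5, 43), (13, 5), (33, 43), (42, 11), (33, 43), (11, 39), (11, 13),
   (5, 27), (8, 33), (17, 11), (33, 17), (13, 34), (15, 0), (35, 43), (34, 5), (31, 32), (39,
   23), (9, 17), (47, 5), (22, 3), (0, 8)],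
[(23, 7), (14, 10), (27, 47), (12, 41), (18, 14), (45, 15), (4, 10), (14, 45), (47, 30), (10,
   45), (34, 47), (18, 10), (45, 40), (10, 32), (27, 5), (40, 14), (4, 9), (32, 12), (20, 12),
   (14, 4), (18, 7), (7, 14), (22, 4), (31, 37), (40, 47), (14, 29), (14, 10), (47, 18), (12,
   45), (10, 12), (15, 0), (40, 47), (45, 8), (14, 29), (12, 6), (7, 24), (44, 18), (45, 18),
   (12, 45), (24, 14), (8, 15), (47, 18), (10, 40), (12, 31), (40, 18), (12, 46), (30, 44), (20,
   21), (11, 30), (29, 22), (0, 40)],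
[(22, 28), (13, 11), (17, 37), (38, 23), (33, 17), (25, 28), (28, 29), (39, 42), (25, 9), (39,
   11), (38, 7), (13, 5), (19, 36), (11, 42), (23, 44), (42, 36), (19, 16), (42, 19), (36, 28),
   (38, 39), (28, 38), (36, 28), (17, 42), (34, 13), (36, 38), (28, 38), (39, 11), (21, 19), (9,
   22), (1, 17), (39, 13), (17, 43), (42, 38), (17, 26), (36, 39), (38, 11), (39, 30), (43, 6),
   (11, 36), (17, 42), (23, 39), (39, 47), (42, 21), (39, 30), (31, 19), (44, 39), (26, 42),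
   (18, 44), (22, 28), (11, 1)],
[(2, 14), (32, 31), (14, 29), (41, 12), (22, 32), (32, 14), (38, 28), (32, 10), (30, 29), (10,
   29), (45, 10), (22, 9), (25, 19), (10, 14), (25, 9), (9, 32), (9, 20), (29, 9), (7, 29), (29,
   22), (22, 9), (19, 16), (2, 14), (29, 22), (14, 22), (7, 29), (32, 12), (9, 10), (32, 41),
   (14, 44), (20, 32), (22, 25), (9, 20), (24, 22), (24, 38), (2, 14), (32, 12), (22, 25), (21,
   20), (14, 7), (12, 10), (20, 32), (2, 14), (35, 32), (29, 24), (19, 26), (27, 5), (28, 22),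
   (12, 45)],
[(8, 33), (44, 34), (0, 33), (20, 35), (27, 45), (1, 13), (15, 0), (1, 34), (47, 27), (27, 0),
   (43, 26), (33, 1), (47, 27), (26, 17), (6, 35), (33, 43), (13, 23), (13, 30), (23, 30), (42,
   11), (43, 1), (34, 0), (11, 13), (44, 7), (13, 34), (8, 6), (12, 0), (0, 1), (13, 27), (0,
   33), (1, 11), (33, 43), (13, 39), (13, 30), (34, 27), (0, 8), (1, 11), (33, 1), (30, 34),
   (27, 15), (35, 33), (34, 27), (31, 6), (13, 23), (26, 19), (4, 2), (49, 22), (31, 6)],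
[(2, 12), (35, 41), (31, 20), (12, 31), (43, 35), (41, 31), (33, 5), (41, 12), (8, 41), (20,
   46), (37, 43), (40, 45), (21, 37), (31, 46), (46, 37), (9, 20), (0, 34), (31, 9), (16, 46),
   (46, 37), (8, 15), (16, 25), (12, 31), (5, 0), (41, 46), (31, 20), (35, 8), (0, 8), (37, 8),
   (21, 37), (46, 35), (21, 37), (11, 35), (15, 41), (8, 31), (21, 37), (37, 35), (15, 40), (8,
   41), (31, 37), (8, 15), (32, 9), (35, 33), (21, 42), (18, 45), (22, 20), (5, 30)],
[(2, 18), (29, 4), (29, 14), (30, 23), (14, 2), (44, 30), (29, 18), (2, 18), (22, 29), (23, 3),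
   (14, 44), (28, 25), (29, 4), (25, 22), (24, 29), (44, 24), (23, 29), (24, 22), (42, 24), (18,
   47), (24, 29), (24, 14), (44, 23), (32, 10), (4, 14), (47, 34), (47, 44), (18, 27), (38, 24),
   (22, 16), (23, 24), (30, 23), (18, 47), (14, 2), (38, 24), (30, 11), (18, 23), (2, 18), (4,
   32), (18, 44), (32, 31), (30, 11), (26, 36), (45, 8), (21, 22), (47, 34)],
[(31, 20), (45, 41), (33, 1), (45, 41), (33, 5), (2, 45), (0, 45), (6, 46), (43, 33), (40, 45),
   (21, 37), (31, 6), (6, 37), (32, 31), (34, 27), (18, 7), (46, 21), (37, 35), (0, 15), (46,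
   25), (45, 10), (0, 34), (41, 6), (41, 31), (35, 0), (0, 27), (6, 33), (37, 26), (6, 35), (1,
   39), (33, 13), (15, 45), (45, 6), (35, 43), (35, 33), (27, 47), (15, 41), (6, 35), (27, 15),
   (9, 20), (5, 0), (26, 35), (7, 2), (32, 22), (39, 13)],
[(32, 4), (25, 42), (20, 32), (28, 3), (4, 22), (41, 12), (22, 20), (19, 16), (14, 29), (25,
   16), (16, 32), (16, 20), (4, 16), (24, 22), (29, 22), (22, 16), (16, 21), (45, 10), (22, 25),
   (4, 22), (29, 24), (20, 32), (20, 4), (37, 46), (4, 7), (46, 20), (22, 25), (16, 46), (22,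
   28), (28, 25), (32, 10), (31, 32), (25, 19), (21, 37), (7, 29), (32, 10), (16, 20), (10, 4),
   (6, 8), (22, 38), (17, 1), (2, 4), (22, 28), (6, 31)],
[(14, 7), (32, 45), (47, 18), (2, 4), (45, 2), (9, 32), (26, 46), (2, 14), (9, 16), (32, 12),
   (32, 20), (29, 4), (7, 29), (14, 29), (4, 9), (20, 46), (45, 40), (29, 4), (14, 4), (18, 44),
   (32, 12), (4, 12), (8, 45), (2, 47), (12, 41), (4, 25), (46, 31), (24, 29), (23, 24), (45,
   2), (12, 45), (25, 9), (31, 6), (18, 14), (12, 2), (32, 31), (2, 18), (37, 31), (44, 14),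
   (16, 32), (34, 47), (28, 22), (33, 45)],
[(33, 41), (30, 1), (7, 44), (5, 0), (42, 19), (1, 42), (44, 30), (42, 3), (21, 42), (26, 42),
   (3, 28), (39, 30), (38, 39), (42, 36), (17, 42), (13, 5), (3, 38), (38, 24), (39, 13), (43,
   37), (19, 9), (1, 17), (30, 13), (1, 43), (42, 3), (43, 17), (3, 39), (3, 30), (34, 13), (33,
   35), (17, 3), (1, 17), (39, 30), (27, 5), (17, 26), (30, 13), (37, 17), (14, 44), (21, 20),
   (30, 2), (22, 28), (0, 1)],
[(15, 27), (2, 10), (41, 45), (32, 20), (37, 6), (2, 10), (16, 20), (32, 31), (20, 31), (4, 32),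
   (2, 7), (10, 29), (9, 20), (31, 37), (15, 45), (4, 22), (10, 4), (47, 2), (32, 41), (10, 31),
   (41, 8), (45, 40), (6, 41), (25, 16), (31, 6), (29, 4), (18, 23), (45, 2), (31, 45), (20,
   21), (6, 35), (2, 18), (41, 10), (20, 31), (40, 2), (46, 31), (2, 44), (21, 46), (30, 2), (4,
   28), (8, 0)],
[(44, 18), (27, 5), (17, 42), (1, 11), (30, 47), (42, 11), (1, 26), (26, 17), (39, 24), (39,
   30), (39, 23), (3, 39), (1, 17), (34, 5), (3, 39), (23, 30), (11, 34), (8, 33), (2, 34), (5,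
   1), (30, 5), (33, 1), (11, 3), (43, 17), (11, 39), (11, 30), (34, 27), (15, 0), (17, 11), (1,
   11), (30, 34), (34, 27), (33, 1), (30, 34), (31, 6), (22, 24), (17, 42), (10, 47), (22, 24),
   (8, 31)],
[(2, 40), (22, 4), (7, 38), (2, 7), (22, 4), (4, 32), (4, 20), (29, 4), (7, 24), (7, 29), (29,
   22), (22, 16), (40, 18), (24, 29), (7, 4), (44, 7), (32, 10), (4, 10), (40, 27), (18, 44),
   (41, 45), (28, 29), (46, 10), (7, 24), (44, 7), (2, 18), (10, 45), (24, 28), (45, 8), (18,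
   7), (10, 2), (32, 10), (2, 18), (37, 31), (30, 11), (52, 25), (33, 27), (29, 22), (40, 33)],
[(41, 46), (33, 0), (40, 45), (21, 8), (12, 41), (6, 8), (2, 10), (27, 47), (47, 40), (12, 20),
   (35, 43), (0, 40), (40, 14), (14, 2), (27, 47), (45, 41), (45, 12), (8, 0), (0, 27), (8, 0),
   (17, 53), (8, 35), (30, 47), (13, 34), (27, 45), (45, 8), (43, 33), (8, 33), (47, 40), (40,
   8), (41, 6), (27, 40), (41, 16), (27, 30), (26, 43), (28, 14), (2, 22), (17, 0)],
[(19, 26), (14, 29), (25, 21), (46, 9), (19, 46), (9, 25), (28, 25), (22, 25), (22, 19), (19,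
   21), (6, 15), (22, 25), (9, 22), (38, 36), (46, 20), (20, 9), (21, 37), (42, 13), (37, 46),
   (25, 19), (21, 46), (25, 36), (36, 3), (12, 32), (46, 31), (19, 21), (26, 21), (22, 24), (20,
   12), (21, 20), (14, 18), (41, 31), (30, 36), (42, 17), (10, 9), (22, 44), (37, 35)],
[(30, 13), (26, 42), (26, 21), (26, 42), (42, 36), (3, 39), (3, 38), (19, 42), (43, 42), (5,
   33), (36, 3), (28, 3), (11, 13), (37, 46), (26, 21), (1, 43), (13, 1), (33, 43), (42, 3),
   (43, 26), (3, 11), (3, 11), (27, 0), (35, 43), (26, 11), (1, 26), (11, 30), (33, 8), (37,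
   26), (13, 34), (31, 46), (39, 11), (16, 9), (34, 1), (22, 36), (0, 15)],
[(28, 29), (14, 32), (14, 32), (29, 14), (44, 7), (44, 7), (7, 29), (30, 11), (40, 47), (7, 29),
   (7, 14), (47, 44), (12, 2), (14, 10), (27, 47), (47, 44), (40, 0), (38, 24), (45, 8), (23,
   7), (44, 23), (2, 47), (2, 45), (23, 38), (33, 47), (47, 7), (2, 40), (10, 12), (40, 44),
   (46, 12), (44, 39), (23, 42), (2, 45), (25, 29), (0, 27)],
[(21, 16), (26, 16), (16, 25), (36, 38), (28, 36), (16, 36), (42, 21), (17, 26), (25, 36), (25,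
   28), (39, 3), (46, 16), (16, 9), (17, 26), (11, 42), (26, 37), (25, 42), (26, 21), (36, 3),
   (36, 3), (45, 20), (46, 31), (36, 26), (26, 37), (28, 36), (31, 20), (21, 16), (36, 39), (31,
   45), (36, 39), (27, 33), (4, 14), (25, 29), (26, 0)],
[(16, 46), (9, 16), (9, 22), (9, 22), (9, 16), (21, 46), (15, 45), (9, 25), (4, 9), (9, 24),
   (46, 32), (31, 9), (46, 35), (41, 15), (46, 6), (25, 16), (21, 46), (28, 25), (25, 36), (45,
   12), (31, 12), (19, 21), (21, 37), (14, 4), (31, 12), (16, 31), (12, 2), (8, 31), (38, 25),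
   (11, 21), (2, 10), (22, 28), (5, 6)],
[(16, 25), (38, 3), (25, 28), (16, 19), (19, 37), (37, 35), (25, 19), (16, 22), (42, 11), (46,
   20), (20, 16), (43, 37), (1, 43), (37, 46), (19, 42), (26, 46), (36, 42), (3, 42), (6, 41),
   (6, 46), (19, 26), (26, 37), (36, 38), (46, 31), (37, 16), (53, 37), (31, 12), (39, 42), (30,
   11), (12, 2), (22, 7), (33, 37)],
[(24, 28), (29, 28), (28, 16), (19, 16), (14, 18), (24, 25), (4, 24), (24, 23), (9, 32), (9, 4),
   (26, 43), (44, 24), (16, 46), (28, 25), (21, 16), (24, 28), (24, 38), (2, 14), (32, 12), (36,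
   25), (26, 21), (7, 24), (4, 10), (16, 9), (29, 7), (9, 31), (23, 13), (42, 25), (40, 14), (5,
   49), (9, 48)],
[(38, 7), (38, 28), (39, 3), (47, 30), (38, 24), (24, 7), (44, 39), (29, 7), (29, 7), (30, 13),
   (44, 30), (13, 1), (38, 28), (17, 3), (39, 24), (30, 38), (18, 44), (45, 44), (3, 38), (1,
   11), (7, 30), (18, 44), (38, 25), (44, 30), (32, 31), (1, 43), (3, 42), (18, 45), (28, 22),
   (30, 5)],
[(28, 22), (42, 36), (47, 44), (38, 22), (22, 7), (44, 23), (22, 32), (22, 4), (13, 39), (44,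
   23), (43, 42), (38, 28), (36, 19), (23, 28), (23, 38), (18, 44), (10, 14), (38, 36), (3, 42),
   (7, 23), (14, 2), (16, 22), (7, 44), (9, 31), (13, 33), (26, 36), (2, 7), (46, 22), (34, 30)],
[(19, 16), (44, 28), (22, 36), (22, 28), (28, 38), (16, 20), (16, 9), (42, 19), (38, 39), (37,
   21), (28, 19), (19, 21), (28, 36), (38, 36), (2, 22), (20, 9), (36, 19), (26, 21), (24, 28),
   (9, 10), (21, 16), (7, 24), (16, 31), (34, 39), (17, 33), (40, 22), (22, 29), (43, 0)],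
[(5, 33), (19, 36), (19, 28), (11, 17), (37, 46), (20, 21), (17, 43), (17, 1), (43, 37), (19,
   42), (43, 21), (36, 42), (42, 11), (0, 35), (35, 37), (19, 17), (17, 37), (39, 11), (35, 37),
   (37, 21), (1, 5), (31, 46), (39, 44), (36, 24), (8, 45), (19, 29), (43, 0)],
[(23, 44), (47, 18), (34, 47), (15, 41), (40, 45), (0, 5), (5, 47), (8, 0), (3, 34), (35, 0),
   (30, 23), (34, 30), (47, 15), (15, 8), (5, 11), (33, 5), (34, 47), (40, 15), (6, 8), (34,
   40), (41, 6), (39, 30), (26, 19), (14, 4), (7, 29), (0, 33)],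
[(22, 24), (23, 38), (20, 9), (9, 22), (3, 17), (23, 30), (26, 19), (38, 25), (19, 21), (24,
   36), (38, 3), (29, 18), (9, 32), (3, 36), (36, 26), (24, 23), (10, 29), (25, 16), (24, 44),
   (20, 31), (30, 38), (36, 26), (14, 15), (12, 4), (5, 11)],
[(7, 23), (32, 10), (4, 10), (47, 7), (7, 44), (32, 31), (28, 22), (16, 9), (24, 28), (23, 24),
   (14, 18), (12, 10), (28, 36), (36, 26), (7, 24), (10, 14), (9, 20), (18, 7), (4, 32), (23,
   39), (43, 26), (14, 40), (25, 22), (0, 18)],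
[(40, 41), (7, 14), (5, 13), (47, 13), (5, 33), (39, 38), (43, 17), (39, 23), (11, 23), (47,
   34), (47, 15), (11, 39), (1, 11), (23, 47), (47, 40), (43, 37), (44, 34), (31, 41), (39, 36),
   (11, 21), (2, 12), (23, 22), (6, 5)],
[(12, 20), (6, 8), (8, 41), (46, 6), (16, 19), (46, 6), (28, 20), (3, 21), (41, 45), (6, 12),
   (21, 46), (37, 6), (2, 18), (41, 12), (20, 6), (40, 45), (36, 19), (30, 40), (42, 46), (45,
   2), (24, 22), (13, 5)],
[(31, 8), (40, 2), (46, 31), (9, 25), (46, 31), (4, 22), (24, 22), (45, 10), (31, 12), (9, 19),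
   (46, 31), (10, 14), (12, 10), (20, 31), (2, 10), (1, 35), (23, 29), (16, 21), (47, 10), (38,
   22), (8, 41)],
[(5, 0), (8, 43), (42, 17), (35, 43), (11, 1), (1, 13), (27, 0), (8, 35), (43, 17), (35, 1), (5,
   34), (15, 8), (35, 37), (5, 27), (31, 6), (24, 13), (25, 42), (27, 14), (50, 42), (40, 0)],
[(0, 5), (3, 39), (5, 43), (39, 30), (13, 30), (47, 27), (15, 0), (13, 11), (5, 1), (30, 47),
   (40, 27), (0, 35), (30, 27), (31, 8), (39, 25), (17, 13), (47, 10), (24, 22), (46, 35)],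
[(26, 42), (6, 43), (43, 17), (11, 1), (0, 15), (8, 6), (26, 43), (37, 33), (34, 0), (8, 41),
   (6, 37), (0, 27), (32, 4), (1, 23), (36, 42), (15, 8), (22, 16), (34, 44)],
[(26, 19), (28, 3), (38, 3), (18, 44), (46, 16), (3, 19), (42, 26), (24, 38), (25, 4), (19, 16),
   (38, 30), (41, 31), (30, 39), (43, 35), (28, 24), (22, 29), (0, 17)],
[(36, 42), (26, 17), (8, 6), (8, 6), (21, 26), (26, 35), (43, 5), (8, 6), (6, 21), (33, 0), (31,
   10), (11, 43), (38, 42), (18, 45), (22, 21), (33, 0)],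
[(23, 3), (18, 44), (12, 29), (3, 36), (17, 3), (24, 23), (7, 18), (36, 16), (23, 30), (20, 31),
   (34, 39), (26, 37), (7, 18), (22, 32), (39, 1)],
[(47, 30), (34, 0), (11, 3), (11, 17), (23, 30), (44, 47), (26, 42), (44, 30), (31, 3), (44,
   45), (26, 46), (44, 47), (22, 32), (13, 8)],
[(45, 15), (27, 13), (15, 0), (47, 18), (2, 15), (45, 41), (27, 18), (45, 31), (39, 47), (43,
   0), (29, 14), (14, 22), (0, 33)],
[(46, 6), (6, 35), (40, 45), (8, 12), (31, 6), (15, 40), (31, 16), (15, 30), (21, 42), (45, 2),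
   (4, 22), (8, 0)],
[(17, 26), (3, 39), (26, 37), (26, 21), (30, 11), (31, 21), (39, 30), (41, 46), (38, 18), (22,
   36), (0, 33)],
[(1, 34), (8, 35), (35, 37), (5, 33), (31, 32), (23, 30), (26, 29), (40, 15), (26, 36), (33, 0)],
[(18, 40), (10, 18), (18, 30), (18, 12), (26, 39), (39, 42), (2, 45), (16, 22), (35, 34)],
[(31, 41), (40, 2), (19, 31), (39, 44), (41, 6), (18, 7), (28, 10), (33, 0)],
[(15, 41), (2, 12), (50, 26), (39, 26), (45, 31), (22, 24), (35, 34)],
[(45, 40), (39, 38), (17, 13), (10, 32), (7, 22), (0, 33)],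
[(0, 0), (21, 46), (31, 12), (31, 22), (6, 31)],
[(11, 39), (44, 30), (22, 24), (5, 13)],
[(0, 0), (25, 36), (33, 43)],
[(29, 14), (40, 33)],
[(0, 0)],
[]]

end Pool.Agent.Y371.VF
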