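import Pool.Agent.Y371.VF.Main

/-! The 48 faces. -/

set_option autoImplicit false

namespace Pool.Agent.Y371.VF

open Set

lemma pt_inj {p q : ℤ × ℤ × ℤ} (h : pt p = pt q) : p = q := by
  have h0 : (p.1 : ℝ) / 1000 = q.1 / 1000 := by rw [← pt_0, ← pt_0, h]
  have h1 : (p.2.1 : ℝ) / 1000 = q.2.1 / 1000 := by rw [← pt_1, ← pt_1, h]
  have h2 : (p.2.2 : ℝ) / 1000 = q.2.2 / 1000 := by rw [← pt_2, ← pt_2, h]
  have e0 : (p.1 : ℝ) = q.1 := by linarith
  have e1 : (p.2.1 : ℝ) = q.2.1 := by linarith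
  have e2 : (p.2.2 : ℝ) = q.2.2 := by linarith
  exact Prod.ext (by exact_mod_cast e0) (Prod.ext (by exact_mod_cast e1) (by exact_mod_cast e2))

lemma pt_ne_zero {q : ℤ × ℤ × ℤ} (hq : q ∈ pts) : pt q ≠ 0 := by
  intro h
  have := (norm_pt hq).1
  rw [h, norm_zero] at this
  norm_num at this

/-- points of the bisector plane close to the midpoint belong to the face -/
lemma mem_face {P : Set E3} (hC : C0 ⊆ P) (hP : IsPacking P) {q : ℤ × ℤ × ℤ} (hq : q ∈ pts)
    {w : E3} (hw : inner ℝ w (pt q) = 0) (hsmall : ‖w‖ ≤ 1 / 200) :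
    (1 / 2 : ℝ) • pt q + w ∈ cell P 0 ∩ cell P (pt q) := by
  have e1 : ‖(1 / 2 : ℝ) • pt q + w - 0‖ = ‖(1 / 2 : ℝ) • pt q + w - pt q‖ := by
    rw [← sq_eq_sq₀ (norm_nonneg _) (norm_nonneg _), sub_zero, norm_sub_sq_real, inner_add_left,
      hw, inner_smul_left, real_inner_self_eq_norm_sq]
    simp
  have e2 : ∀ c ∈ P, ‖(1 / 2 : ℝ) • pt q + w - 0‖ ≤ ‖(1 / 2 : ℝ) • pt q + w - c‖ := by
    intro c hc
    by_cases h0 : c = 0
    · rw [h0]
    by_cases h1 : c = pt q
    · rw [h1, e1]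
    have hg := gap hC hP hq hc h0 h1
    have t1 : ‖(1 / 2 : ℝ) • pt q + w - 0‖ ≤ ‖(1 / 2 : ℝ) • pt q‖ + ‖w‖ := by
      rw [sub_zero]; exact norm_add_le _ _
    have t2 : ‖(1 / 2 : ℝ) • pt q - c‖ ≤ ‖(1 / 2 : ℝ) • pt q + w - c‖ + ‖w‖ := by
      have := norm_sub_le ((1 / 2 : ℝ) • pt q + w - c) w
      have h : (1 / 2 : ℝ) • pt q + w - c - w = (1 / 2 : ℝ) • pt q - c := by abel
      rwa [h] at this
    linarith
  refine ⟨fun c hc => ?_, fun c hc => ?_⟩
  · rw [dist_eq_norm, dist_eq_norm]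
    exact e2 c hc
  · rw [dist_eq_norm, dist_eq_norm, ← e1]
    exact e2 c hc

lemma finrank_face {P : Set E3} (hC : C0 ⊆ P) (hP : IsPacking P) {q : ℤ × ℤ × ℤ} (hq : q ∈ pts) :
    Module.finrank ℝ (vectorSpan ℝ (cell P 0 ∩ cell P (pt q))) = 2 := by
  have h0P : (0 : E3) ∈ P := hC (mem_insert _ _)
  have hqP : pt q ∈ P := hC (mem_insert_of_mem _ ⟨q, hq, rfl⟩)
  have hspan : vectorSpan ℝ (cell P 0 ∩ cell P (pt q)) = (Submodule.span ℝ {pt q})ᗮ := by
    apply le_antisymm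
    · have hin : ∀ x ∈ cell P 0 ∩ cell P (pt q), 2 * inner ℝ x (pt q) = ‖pt q‖ ^ 2 := by
        rintro x ⟨h1, h2⟩
        have e : dist x 0 = dist x (pt q) := le_antisymm (h1 _ hqP) (h2 _ h0P)
        rw [dist_zero_right, dist_eq_norm, ← sq_eq_sq₀ (norm_nonneg _) (norm_nonneg _),
          norm_sub_sq_real] at e
        linarith
      rw [vectorSpan_def, Submodule.span_le]
      rintro v ⟨x, hx, y, hy, rfl⟩
      simp only [SetLike.mem_coe, vsub_eq_sub]
      rw [Submodule.mem_orthogonal_singleton_iff_inner_left, inner_sub_left]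
      have := hin x hx
      have := hin y hy
      linarith
    · intro w hw
      rw [Submodule.mem_orthogonal_singleton_iff_inner_left] at hw
      by_cases hw0 : w = 0
      · rw [hw0]; exact zero_mem _
      have hwn : 0 < ‖w‖ := norm_pos_iff.mpr hw0
      set e : ℝ := 1 / (200 * ‖w‖) with he
      have he0 : e ≠ 0 := by positivity
      have hm1 := mem_face hC hP hq (w := e • w) (by rw [inner_smul_left, hw]; simp) (by
        rw [norm_smul, he, Real.norm_of_nonneg (by positivity)]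
        field_simp
        norm_num)
      have hm0 := mem_face hC hP hq (w := 0) (by simp) (by norm_num)
      have := vsub_mem_vectorSpan ℝ hm1 hm0
      rw [vsub_eq_sub, add_sub_add_left_eq_sub, sub_zero] at this
      have h2 := Submodule.smul_mem _ e⁻¹ this
      rwa [smul_smul, inv_mul_cancel₀ he0, one_smul] at h2
  rw [hspan]
  have h3 := Submodule.finrank_add_finrank_orthogonal (Submodule.span ℝ {pt q})
  rw [finrank_span_singleton (pt_ne_zero hq), finrank_euclideanSpace_fin] at h3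
  omega

/-- main theorem -/
theorem main : ∃ P : Set E3, IsPacking P ∧ IsSaturated P ∧ ∃ p ∈ P,
    48 ≤ {q | q ∈ P ∧ q ≠ p ∧
      Module.finrank ℝ (vectorSpan ℝ (cell P p ∩ cell P q)) = 2}.encard := by
  obtain ⟨P, hC, hP, hS⟩ := exists_saturated C0 C0_packing
  refine ⟨P, hP, hS, 0, hC (mem_insert _ _), ?_⟩
  have hsub : pt '' (pts.toFinset : Set (ℤ × ℤ × ℤ)) ⊆ {q | q ∈ P ∧ q ≠ 0 ∧
      Module.finrank ℝ (vectorSpan ℝ (cell P 0 ∩ cell P q)) = 2} := by
    rintro _ ⟨q, hq, rfl⟩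
    have hq' : q ∈ pts := by simpa using hq
    exact ⟨hC (mem_insert_of_mem _ ⟨q, hq', rfl⟩), pt_ne_zero hq', finrank_face hC hP hq'⟩
  refine le_trans ?_ (encard_le_encard hsub)
  rw [Function.Injective.encard_image (fun _ _ h => pt_inj h), encard_coe_eq_coe_finsetCard,
    card_pts]
  norm_num

end Pool.Agent.Y371.VF
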