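import Pool.Agent.Y371.VF.Poly

/-! A saturated packing of unit balls one of whose Voronoi cells has at least 48 faces. -/

set_option autoImplicit false

namespace Pool.Agent.Y371.VF

open Set

abbrev E3 := EuclideanSpace ℝ (Fin 3)

/-- `P` is the set of centres of a packing of unit balls -/
def IsPacking (P : Set E3) : Prop := ∀ x ∈ P, ∀ y ∈ P, x ≠ y → 2 ≤ dist x y

/-- no unit ball can be added to the packing -/
def IsSaturated (P : Set E3) : Prop := ∀ x : E3, ∃ c ∈ P, dist x c < 2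

/-- the Voronoi cell of `p` -/
def cell (P : Set E3) (p : E3) : Set E3 := {x | ∀ q ∈ P, dist x p ≤ dist x q}

lemma exists_saturated (C : Set E3) (hC : IsPacking C) :
    ∃ P, C ⊆ P ∧ IsPacking P ∧ IsSaturated P := by
  obtain ⟨P, hCP, hP⟩ := zorn_subset_nonempty {P : Set E3 | IsPacking P} (by
    intro c hc hchain _
    refine ⟨⋃₀ c, ?_, fun s hs => subset_sUnion_of_mem hs⟩
    rintro x ⟨s, hs, hx⟩ y ⟨t, ht, hy⟩ hxy
    rcases hchain.total hs ht with h | h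
    · exact hc ht x (h hx) y hy hxy
    · exact hc hs x hx y (h hy) hxy) C hC
  refine ⟨P, hCP, hP.prop, ?_⟩
  intro x
  by_contra hcon
  push Not at hcon
  have hins : IsPacking (insert x P) := by
    rintro a (rfl | ha) b (rfl | hb) hab
    · exact absurd rfl hab
    · exact hcon b hb
    · rw [dist_comm]; exact hcon a ha
    · exact hP.prop a ha b hb hab
  have := hP.eq_of_subset hins (subset_insert x P)
  have hx : x ∈ P := by rw [this]; exact mem_insert x P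
  have := hcon x hx
  rw [dist_self] at this
  norm_num at this

/-- the neighbour with integer coordinates `q` (scale 1000) -/
noncomputable def pt (q : ℤ × ℤ × ℤ) : E3 :=
  !₂[(q.1 : ℝ) / 1000, (q.2.1 : ℝ) / 1000, (q.2.2 : ℝ) / 1000]

lemma inner_eq (x y : E3) : inner ℝ x y = x 0 * y 0 + x 1 * y 1 + x 2 * y 2 := by
  rw [PiLp.inner_apply, Fin.sum_univ_three]
  simp only [RCLike.inner_apply, conj_trivial]
  ring

lemma norm_sq_eq (x : E3) : ‖x‖ ^ 2 = x 0 ^ 2 + x 1 ^ 2 + x 2 ^ 2 := by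
  rw [← real_inner_self_eq_norm_sq, inner_eq]; ring

lemma pt_0 (q : ℤ × ℤ × ℤ) : pt q 0 = (q.1 : ℝ) / 1000 := rfl
lemma pt_1 (q : ℤ × ℤ × ℤ) : pt q 1 = (q.2.1 : ℝ) / 1000 := rfl
lemma pt_2 (q : ℤ × ℤ × ℤ) : pt q 2 = (q.2.2 : ℝ) / 1000 := rfl

lemma radii : ∀ q ∈ pts, 12500000 ≤ q.1 * q.1 + q.2.1 * q.2.1 + q.2.2 * q.2.2 ∧
    q.1 * q.1 + q.2.1 * q.2.1 + q.2.2 * q.2.2 ≤ 15210000 := by decide +kernel

lemma seps : pts.Pairwise (fun p q => 4000000 ≤ (p.1 - q.1) * (p.1 - q.1) +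
    (p.2.1 - q.2.1) * (p.2.1 - q.2.1) + (p.2.2 - q.2.2) * (p.2.2 - q.2.2)) := by decide +kernel

lemma card_pts : pts.toFinset.card = 48 := by decide +kernel

lemma norm_pt {q : ℤ × ℤ × ℤ} (hq : q ∈ pts) : 12.5 ≤ ‖pt q‖ ^ 2 ∧ ‖pt q‖ ^ 2 ≤ 15.21 := by
  obtain ⟨h1, h2⟩ := radii q hq
  have h1' : (12500000 : ℝ) ≤ q.1 * q.1 + q.2.1 * q.2.1 + q.2.2 * q.2.2 := by exact_mod_cast h1
  have h2' : (q.1 : ℝ) * q.1 + q.2.1 * q.2.1 + q.2.2 * q.2.2 ≤ 15210000 := by exact_mod_cast h2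
  rw [norm_sq_eq, pt_0, pt_1, pt_2]
  constructor <;> nlinarith

lemma dist_pt {p q : ℤ × ℤ × ℤ} (hp : p ∈ pts) (hq : q ∈ pts) (hpq : p ≠ q) :
    4 ≤ ‖pt p - pt q‖ ^ 2 := by
  have key : ∀ p ∈ pts, ∀ q ∈ pts, p ≠ q → 4000000 ≤ (p.1 - q.1) * (p.1 - q.1) +
      (p.2.1 - q.2.1) * (p.2.1 - q.2.1) + (p.2.2 - q.2.2) * (p.2.2 - q.2.2) := by
    have hs : Std.Symm (fun p q : ℤ × ℤ × ℤ => p ≠ q → 4000000 ≤ (p.1 - q.1) * (p.1 - q.1) +
      (p.2.1 - q.2.1) * (p.2.1 - q.2.1) + (p.2.2 - q.2.2) * (p.2.2 - q.2.2)) := by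
      constructor
      intro a b h hba
      have := h (Ne.symm hba)
      nlinarith
    have h2 : pts.Pairwise (fun p q : ℤ × ℤ × ℤ => p ≠ q → 4000000 ≤ (p.1 - q.1) * (p.1 - q.1) +
      (p.2.1 - q.2.1) * (p.2.1 - q.2.1) + (p.2.2 - q.2.2) * (p.2.2 - q.2.2)) := by
      refine seps.imp ?_
      intro a b h _
      exact h
    intro p hp q hq
    exact h2.forall_of_forall (fun x _ h => absurd rfl h) hp hq
  have h := key p hp q hq hpq
  have h' : (4000000 : ℝ) ≤ (p.1 - q.1) * (p.1 - q.1) +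
      (p.2.1 - q.2.1) * (p.2.1 - q.2.1) + (p.2.2 - q.2.2) * (p.2.2 - q.2.2) := by exact_mod_cast h
  rw [norm_sq_eq]
  simp only [PiLp.sub_apply, pt_0, pt_1, pt_2]
  nlinarith

/-- the finite packing: the origin and the 48 points -/
def C0 : Set E3 := insert 0 (pt '' {q | q ∈ pts})

lemma two_le_of_sq {x : ℝ} (h0 : 0 ≤ x) (h : 4 ≤ x ^ 2) : 2 ≤ x := by nlinarith

lemma C0_packing : IsPacking C0 := by
  rintro x (rfl | ⟨p, hp, rfl⟩) y (rfl | ⟨q, hq, rfl⟩) hxy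
  · exact absurd rfl hxy
  · rw [dist_eq_norm, zero_sub, norm_neg]
    exact two_le_of_sq (norm_nonneg _) (by linarith [(norm_pt hq).1])
  · rw [dist_eq_norm, sub_zero]
    exact two_le_of_sq (norm_nonneg _) (by linarith [(norm_pt hp).1])
  · rw [dist_eq_norm]
    refine two_le_of_sq (norm_nonneg _) (dist_pt hp hq ?_)
    rintro rfl
    exact hxy rfl

lemma abs_le_2000 {x y z : ℝ} (h : x ^ 2 + y ^ 2 + z ^ 2 = 4000000) : |x| ≤ 2000 := by
  apply abs_le_of_sq_le_sq _ (by norm_num)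
  nlinarith [sq_nonneg y, sq_nonneg z]

/-- the ball of radius 4 is covered by the open balls of radius 2 -/
lemma cover (z : E3) (hz : ‖z‖ ≤ 4) : ‖z‖ < 2 ∨ ∃ q ∈ pts, ‖z - pt q‖ < 2 := by
  rcases lt_or_ge ‖z‖ 2 with h2 | h2
  · exact Or.inl h2
  right
  set t := ‖z‖ with ht
  have ht0 : 0 < t := by linarith
  have hzsq : z 0 ^ 2 + z 1 ^ 2 + z 2 ^ 2 = t ^ 2 := (norm_sq_eq z).symm
  set a := 2000 / t with ha
  have hat : a * t = 2000 := by rw [ha]; field_simp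
  have ha0 : 0 < a := by positivity
  have hsq : (a * z 0) ^ 2 + (a * z 1) ^ 2 + (a * z 2) ^ 2 = 4000000 := by
    have : (a * z 0) ^ 2 + (a * z 1) ^ 2 + (a * z 2) ^ 2 = a ^ 2 * (z 0 ^ 2 + z 1 ^ 2 + z 2 ^ 2) := by
      ring
    rw [this, hzsq, ← mul_pow, hat]; norm_num
  have hnot : ¬ Feas cons (a * z 0) (a * z 1) (a * z 2) := by
    intro h
    have := short _ _ _ h
    linarith
  unfold Feas at hnot
  push Not at hnot
  obtain ⟨c, hc, hlt⟩ := hnot
  have b0 : |a * z 0| ≤ 2000 := abs_le_2000 hsq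
  have b1 : |a * z 1| ≤ 2000 := abs_le_2000 (y := a * z 0) (z := a * z 2) (by linarith)
  have b2 : |a * z 2| ≤ 2000 := abs_le_2000 (y := a * z 0) (z := a * z 1) (by linarith)
  rw [abs_le] at b0 b1 b2
  rcases List.mem_append.mp hc with hc | hc
  · obtain ⟨q, hq, rfl⟩ := List.mem_map.mp hc
    refine ⟨q, hq, ?_⟩
    obtain ⟨n1, n2⟩ := norm_pt hq
    unfold lin bis at hlt
    simp only at hlt
    push_cast at hlt
    have hinner : inner ℝ z (pt q) = (z 0 * q.1 + z 1 * q.2.1 + z 2 * q.2.2) / 1000 := by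
      rw [inner_eq, pt_0, pt_1, pt_2]; ring
    have hn : ‖pt q‖ ^ 2 = ((q.1 : ℝ) * q.1 + q.2.1 * q.2.1 + q.2.2 * q.2.2) / 1000000 := by
      rw [norm_sq_eq, pt_0, pt_1, pt_2]; ring
    have hlt2 : ‖pt q‖ ^ 2 * 1000000 < 2 * a * (1000 * inner ℝ z (pt q)) := by
      rw [hinner, hn]
      calc _ = (q.1 : ℝ) * q.1 + q.2.1 * q.2.1 + q.2.2 * q.2.2 := by ring
        _ < _ := hlt
        _ = _ := by ring
    have hlt3 : ‖pt q‖ ^ 2 * t < 4 * inner ℝ z (pt q) := by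
      have h1 : ‖pt q‖ ^ 2 * 1000000 * t < 2 * a * (1000 * inner ℝ z (pt q)) * t :=
        mul_lt_mul_of_pos_right hlt2 ht0
      have h2 : 2 * a * (1000 * inner ℝ z (pt q)) * t = 4000000 * inner ℝ z (pt q) := by
        calc _ = 2000 * (a * t) * inner ℝ z (pt q) := by ring
          _ = _ := by rw [hat]; ring
      rw [h2] at h1
      linarith
    have hd : ‖z - pt q‖ ^ 2 = t ^ 2 - 2 * inner ℝ z (pt q) + ‖pt q‖ ^ 2 := by
      rw [norm_sub_sq_real]
    have hfin : ‖z - pt q‖ ^ 2 < 4 := by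
      rw [hd]
      have : (t - 2) * (t + 2) ≤ (t - 2) * (‖pt q‖ ^ 2 / 2) :=
        mul_le_mul_of_nonneg_left (by linarith) (by linarith)
      nlinarith
    nlinarith [norm_nonneg (z - pt q)]
  · exfalso
    simp only [cube, List.mem_cons, List.not_mem_nil, or_false] at hc
    rcases hc with rfl | rfl | rfl | rfl | rfl | rfl <;>
    · unfold lin at hlt
      push_cast at hlt
      linarith [b0.1, b0.2, b1.1, b1.2, b2.1, b2.2]

lemma half_bound {q : ℤ × ℤ × ℤ} (hq : q ∈ pts) : ‖pt q‖ ≤ 3.9 := by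
  have := (norm_pt hq).2
  nlinarith [norm_nonneg (pt q)]

/-- the midpoint of the origin and `pt q` is much closer to these than to other centres -/
lemma gap {P : Set E3} (hC : C0 ⊆ P) (hP : IsPacking P) {q : ℤ × ℤ × ℤ} (hq : q ∈ pts) {c : E3}
    (hc : c ∈ P) (h0 : c ≠ 0) (h1 : c ≠ pt q) :
    ‖(1 / 2 : ℝ) • pt q‖ + 1 / 100 ≤ ‖(1 / 2 : ℝ) • pt q - c‖ := by
  have hm : ‖(1 / 2 : ℝ) • pt q‖ = ‖pt q‖ / 2 := by
    rw [norm_smul]; norm_num; ring
  have hb := half_bound hq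
  rcases lt_or_ge 4 ‖c‖ with h4 | h4
  · have := norm_sub_norm_le c ((1 / 2 : ℝ) • pt q)
    rw [norm_sub_rev] at this
    rw [hm] at this ⊢
    linarith
  · have hc0 : c ∈ C0 := by
      rcases cover c h4 with h | ⟨q', hq', h⟩
      · left
        by_contra hne
        have := hP c hc 0 (hC (mem_insert _ _)) hne
        rw [dist_zero_right] at this
        linarith
      · right
        refine ⟨q', hq', ?_⟩
        by_contra hne
        have := hP c hc (pt q') (hC (mem_insert_of_mem _ ⟨q', hq', rfl⟩)) (Ne.symm hne)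
        rw [dist_eq_norm] at this
        linarith
    rcases hc0 with rfl | ⟨q', hq', rfl⟩
    · exact absurd rfl h0
    · have hne : q ≠ q' := by rintro rfl; exact h1 rfl
      have hd := dist_pt hq hq' hne
      obtain ⟨a1, a2⟩ := norm_pt hq
      obtain ⟨b1, b2⟩ := norm_pt hq'
      rw [norm_sub_sq_real] at hd
      have hd2 : ‖(1 / 2 : ℝ) • pt q - pt q'‖ ^ 2 =
          ‖pt q‖ ^ 2 / 4 - inner ℝ (pt q) (pt q') + ‖pt q'‖ ^ 2 := by
        rw [norm_sub_sq_real, inner_smul_left, hm]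
        simp
        ring
      rw [hm]
      have h5 : (‖pt q‖ / 2 + 1 / 100) ^ 2 ≤ ‖(1 / 2 : ℝ) • pt q - pt q'‖ ^ 2 := by
        rw [hd2]
        nlinarith [norm_nonneg (pt q)]
      exact (pow_le_pow_iff_left₀ (by positivity) (norm_nonneg _) two_ne_zero).mp h5

end Pool.Agent.Y371.VF
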