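import Pool.Agent.Y371.VF.Check

/-! Soundness of the check: all points of the polyhedron are short. -/

set_option autoImplicit false

namespace Pool.Agent.Y371.VF

/-- the linear form of a constraint -/
def lin (c : Con) (x y z : ℝ) : ℝ := c.1 * x + c.2.1 * y + c.2.2.1 * z

/-- the polyhedron -/
def Feas (cs : List Con) (x y z : ℝ) : Prop := ∀ c ∈ cs, lin c x y z ≤ c.2.2.2

lemma ends_sound {m0 m1 m2 D1 X0 X1 X2 D2 Y0 Y1 Y2 : ℤ} {x y z s t : ℝ}
    (h : ends m0 m1 m2 D1 X0 X1 X2 D2 Y0 Y1 Y2 = true) (hs : 0 ≤ s) (ht : 0 ≤ t)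
    (hX0 : (X0 : ℝ) = D1 * x + s * m0) (hX1 : (X1 : ℝ) = D1 * y + s * m1)
    (hX2 : (X2 : ℝ) = D1 * z + s * m2) (hY0 : (Y0 : ℝ) = D2 * x + t * m0)
    (hY1 : (Y1 : ℝ) = D2 * y + t * m1) (hY2 : (Y2 : ℝ) = D2 * z + t * m2) :
    x ^ 2 + y ^ 2 + z ^ 2 < 4000000 := by
  unfold ends at h
  rw [Bool.and_eq_true, Bool.and_eq_true, Bool.or_eq_true, Bool.and_eq_true, decide_eq_true_iff,
    decide_eq_true_iff, decide_eq_true_iff, decide_eq_true_iff, decide_eq_true_iff] at h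
  obtain ⟨h1, h2, h3⟩ := h
  have h1' : (0 : ℝ) < D1 := by exact_mod_cast h1
  have h2' : (D2 : ℝ) < 0 := by exact_mod_cast h2
  have hm : (0 : ℝ) ≤ (m0 : ℝ) ^ 2 + (m1 : ℝ) ^ 2 + (m2 : ℝ) ^ 2 := by positivity
  rcases h3 with h3 | ⟨h3, h4⟩
  · exfalso
    have h3' : ((m0 : ℝ) * Y0 + m1 * Y1 + m2 * Y2) * D1 < (m0 * X0 + m1 * X1 + m2 * X2) * D2 := by
      exact_mod_cast h3
    rw [hX0, hX1, hX2, hY0, hY1, hY2] at h3'
    have e1 : 0 ≤ t * D1 * ((m0 : ℝ) ^ 2 + (m1 : ℝ) ^ 2 + (m2 : ℝ) ^ 2) := by positivity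
    have e2 : 0 ≤ s * (-D2) * ((m0 : ℝ) ^ 2 + (m1 : ℝ) ^ 2 + (m2 : ℝ) ^ 2) :=
      mul_nonneg (mul_nonneg hs (by linarith)) hm
    nlinarith
  · have h3' : (X0 : ℝ) * X0 + X1 * X1 + X2 * X2 < 4000000 * (D1 * D1) := by exact_mod_cast h3
    have h4' : (Y0 : ℝ) * Y0 + Y1 * Y1 + Y2 * Y2 < 4000000 * (D2 * D2) := by exact_mod_cast h4
    rw [hX0, hX1, hX2] at h3'
    rw [hY0, hY1, hY2] at h4'
    set w := x * m0 + y * m1 + z * m2 with hw
    rcases le_total 0 w with h | h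
    · have e1 : 0 ≤ 2 * (s * D1 * w) := by positivity
      have e2 : 0 ≤ s ^ 2 * ((m0 : ℝ) ^ 2 + (m1 : ℝ) ^ 2 + (m2 : ℝ) ^ 2) := by positivity
      have e3 : (D1 : ℝ) ^ 2 * (x ^ 2 + y ^ 2 + z ^ 2) < D1 ^ 2 * 4000000 := by
        rw [hw] at e1
        nlinarith
      exact lt_of_mul_lt_mul_left e3 (by positivity)
    · have e1 : 0 ≤ 2 * (t * (-D2) * (-w)) :=
        mul_nonneg zero_le_two (mul_nonneg (mul_nonneg ht (by linarith)) (by linarith))
      have e2 : 0 ≤ t ^ 2 * ((m0 : ℝ) ^ 2 + (m1 : ℝ) ^ 2 + (m2 : ℝ) ^ 2) := by positivity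
      have e3 : (D2 : ℝ) ^ 2 * (x ^ 2 + y ^ 2 + z ^ 2) < D2 ^ 2 * 4000000 := by
        rw [hw] at e1
        nlinarith
      exact lt_of_mul_lt_mul_left e3 (by positivity)

/-- two normals are not parallel -/
def Indep (a b : Con) : Prop :=
  ¬ (a.2.1 * b.2.2.1 - a.2.2.1 * b.2.1 = 0 ∧ a.2.2.1 * b.1 - a.1 * b.2.2.1 = 0 ∧
    a.1 * b.2.1 - a.2.1 * b.1 = 0)

lemma pairOk_sound {a b l k : Con} {x y z : ℝ} (h : pairOk a b l k = true) (hab : Indep a b)
    (ha : lin a x y z = a.2.2.2) (hb : lin b x y z = b.2.2.2) (hl : lin l x y z ≤ l.2.2.2)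
    (hk : lin k x y z ≤ k.2.2.2) : x ^ 2 + y ^ 2 + z ^ 2 < 4000000 := by
  unfold pairOk line at h
  rw [Bool.or_eq_true] at h
  rcases h with h | h
  · exfalso
    rw [Bool.and_eq_true, Bool.and_eq_true, decide_eq_true_iff, decide_eq_true_iff,
      decide_eq_true_iff] at h
    exact hab h
  · unfold lin at *
    refine ends_sound h (s := l.2.2.2 - lin l x y z) (t := k.2.2.2 - lin k x y z)
      (by unfold lin; linarith) (by unfold lin; linarith) (x := x) (y := y) (z := z)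
      ?_ ?_ ?_ ?_ ?_ ?_ <;>
    · simp only [n0, n1, n2, dn, lin]
      push_cast
      rw [← ha, ← hb]
      ring

/-- the statement for a pair of constraints -/
def R (cs : List Con) (a b : Con) : Prop :=
  ∀ x y z : ℝ, Feas cs x y z → lin a x y z = a.2.2.2 → lin b x y z = b.2.2.2 → Indep a b →
    x ^ 2 + y ^ 2 + z ^ 2 < 4000000

instance R_symm (cs : List Con) : Std.Symm (R cs) := by
  constructor
  intro a b h x y z hf hb ha hab
  refine h x y z hf ha hb ?_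
  intro ⟨h1, h2, h3⟩
  exact hab ⟨by linarith, by linarith, by linarith⟩

lemma R_refl (cs : List Con) (a : Con) : R cs a a := by
  intro x y z _ _ _ h
  exact absurd ⟨by ring, by ring, by ring⟩ h

lemma feas_getD {cs : List Con} {x y z : ℝ} (h : Feas cs x y z) (i : ℕ) :
    lin (cs.getD i (0, 0, 0, 0)) x y z ≤ (cs.getD i (0, 0, 0, 0)).2.2.2 := by
  rcases lt_or_ge i cs.length with hi | hi
  · rw [List.getD_eq_getElem _ _ hi]
    exact h _ (List.getElem_mem hi)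
  · rw [List.getD_eq_default _ _ hi]
    simp [lin]

lemma row_sound (cs : List Con) (a : Con) : ∀ (t : List Con) (r : List (ℕ × ℕ)),
    row cs a t r = true → ∀ b ∈ t, R cs a b
  | [], _, _, b, hb => by simp at hb
  | _ :: _, [], h, _, _ => by simp [row] at h
  | c :: t, q :: r, h, b, hb => by
    rw [row, Bool.and_eq_true] at h
    rcases List.mem_cons.mp hb with rfl | hb
    · intro x y z hf ha hb' hab
      exact pairOk_sound h.1 hab ha hb' (feas_getD hf _) (feas_getD hf _)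
    · exact row_sound cs a t r h.2 b hb

lemma rows_sound (cs : List Con) : ∀ (t : List Con) (r : List (List (ℕ × ℕ))),
    rows cs t r = true → t.Pairwise (R cs)
  | [], _, _ => List.Pairwise.nil
  | _ :: _, [], h => by simp [rows] at h
  | a :: t, r :: rs, h => by
    rw [rows, Bool.and_eq_true] at h
    exact List.Pairwise.cons (row_sound cs a t r h.1) (rows_sound cs t rs h.2)

lemma R_all : ∀ a ∈ cons, ∀ b ∈ cons, R cons a b :=
  fun _ ha _ hb => (rows_sound cons cons cert rows_ok).forall_of_forall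
    (fun x _ => R_refl cons x) ha hb

end Pool.Agent.Y371.VF
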